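import Mathlib

set_option autoImplicit false

namespace Pool.Agent.Results.MP_ca57f4_an.Null

def N (x : ℤ × ℤ) : ℤ := x.1 ^ 2 + x.2 ^ 2

noncomputable def g (x : ℤ × ℤ) : ℂ := ∑' n : ℕ, if N x = 2 ^ n then (-1 / 2) ^ n else 0

lemma g1 {x : ℤ × ℤ} {n : ℕ} (h : N x = 2 ^ n) : g x = (-1 / 2) ^ n := by
  rw [g, tsum_eq_single n fun m hm => if_neg fun e => hm
    (pow_right_injective₀ two_pos (by norm_num) (e.symm.trans h)), if_pos h]

lemma g0 {x : ℤ × ℤ} (h : ∀ n : ℕ, N x ≠ 2 ^ n) : g x = 0 := by simp [g, h]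

lemma g2 {y z : ℤ × ℤ} (h : N y = 2 * N z) : g y = -g z / 2 := by
  by_cases e : ∃ n : ℕ, N z = 2 ^ n
  · obtain ⟨n, e⟩ := e
    rw [g1 e, g1 (n := n + 1) (by rw [h, e]; ring)]
    ring
  · push Not at e
    rw [g0 e, g0 fun n hn => ?_]
    · simp
    · rcases n with _ | n
      · omega
      · exact e n (by rw [pow_succ] at hn; omega)

lemma bd (x : ℤ × ℤ) : ‖g x‖ ≤ 1 / ((x.1 : ℝ) ^ 2 + (x.2 : ℝ) ^ 2) := by
  by_cases e : ∃ n : ℕ, N x = 2 ^ n
  · obtain ⟨n, e⟩ := e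
    have : (x.1 : ℝ) ^ 2 + (x.2 : ℝ) ^ 2 = 2 ^ n := by exact_mod_cast e
    simp [g1 e, this]
  · push Not at e
    rw [g0 e, norm_zero]
    positivity

lemma four (n : ℕ) : ∀ a b c d : ℤ, a ^ 2 + b ^ 2 = 2 ^ n → c ^ 2 + d ^ 2 = 2 ^ n →
    (a = c ∧ b = d) ∨ (a = -c ∧ b = -d) ∨ (a = -d ∧ b = c) ∨ (a = d ∧ b = -c) := by
  induction n with
  | zero =>
    have k : ∀ a b : ℤ, a ^ 2 + b ^ 2 = 2 ^ 0 → -1 ≤ a ∧ a ≤ 1 ∧ -1 ≤ b ∧ b ≤ 1 := fun a b h =>
      ⟨by nlinarith, by nlinarith, by nlinarith, by nlinarith⟩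
    intro a b c d h1 h2
    obtain ⟨_, _, _, _⟩ := k a b h1
    obtain ⟨_, _, _, _⟩ := k c d h2
    interval_cases a <;> interval_cases b <;> interval_cases c <;> interval_cases d <;> simp_all
  | succ n ih =>
    have k : ∀ a b : ℤ, a ^ 2 + b ^ 2 = 2 ^ (n + 1) →
        ∃ p q : ℤ, a = p - q ∧ b = p + q ∧ p ^ 2 + q ^ 2 = 2 ^ n := fun a b h => by
      have : Even (a + b) := by
        have : Even (a ^ 2 + b ^ 2) := ⟨2 ^ n, by rw [h]; ring⟩
        simpa [parity_simps] using this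
      obtain ⟨p, hp⟩ := this
      refine ⟨p, b - p, by omega, by omega, ?_⟩
      rw [show a = 2 * p - b by omega, pow_succ 2 n] at h
      linarith
    intro a b c d h1 h2
    obtain ⟨p, q, rfl, rfl, h3⟩ := k a b h1
    obtain ⟨r, s, rfl, rfl, h4⟩ := k c d h2
    have := ih p q r s h3 h4
    omega

theorem result (w : ℤ × ℤ) (hw : w ≠ 0) : ∃ f : ℤ × ℤ → ℂ, f ≠ 0 ∧
    (∀ x, x ≠ 0 → ‖f x‖ ≤ 1 / ((x.1 : ℝ) ^ 2 + (x.2 : ℝ) ^ 2)) ∧
    (∀ z : ℤ × ℤ, z ≠ 0 →
      HasSum (fun y : {y : ℤ × ℤ // y.1 * z.1 + y.2 * z.2 = z.1 ^ 2 + z.2 ^ 2} => f y) 0) ∧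
    HasSum (fun y : {y : ℤ × ℤ // y.1 * w.2 = y.2 * w.1} => f y) 0 := by
  have S : Summable fun y : {y : ℤ × ℤ // y.1 * w.2 = y.2 * w.1} => g y := by
    have s := Real.summable_one_div_int_pow.2 (one_lt_two (α := ℕ))
    have z : g 0 = 0 := by simpa using bd 0
    by_cases h : w.1 = 0
    · have h2 : w.2 ≠ 0 := fun e => hw (Prod.ext h e)
      have k : ∀ y : {y : ℤ × ℤ // y.1 * w.2 = y.2 * w.1}, y.1.1 = 0 := fun y => by
        simpa [h, h2] using y.2
      refine (s.comp_injective (i := fun y : {y : ℤ × ℤ // y.1 * w.2 = y.2 * w.1} => y.1.2)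
        fun a b e => Subtype.ext (Prod.ext ((k a).trans (k b).symm) e)).of_norm_bounded fun y => ?_
      simpa [k y] using bd y.1
    · refine (s.comp_injective (i := fun y : {y : ℤ × ℤ // y.1 * w.2 = y.2 * w.1} => y.1.1)
        fun a b e => Subtype.ext (Prod.ext e (mul_right_cancel₀ h ?_))).of_norm_bounded fun y => ?_
      · rw [← a.2, ← b.2, show a.1.1 = b.1.1 from e]
      · by_cases e : y.1.1 = 0
        · have : y.1 = 0 := Prod.ext e (by simpa [e, h] using y.2)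
          simp [this, z]
        · exact (bd _).trans (one_div_le_one_div_of_le (by positivity)
            (le_add_of_nonneg_right (sq_nonneg _)))
  refine ⟨fun x => g x + if x = 0 then -∑' y : {y : ℤ × ℤ // y.1 * w.2 = y.2 * w.1}, g y else 0,
    fun h => ?_, fun x hx => by simpa [hx] using bd x, fun z hz => ?_, ?_⟩
  · simpa [g1 (x := (1, 0)) (n := 0) rfl] using congrFun h (1, 0)
  · obtain ⟨a, b⟩ := z
    have hz' : ¬(a = 0 ∧ b = 0) := by simpa using hz
    have p : 0 < a ^ 2 + b ^ 2 := by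
      by_contra h
      exact hz' ⟨by nlinarith, by nlinarith⟩
    have e : (0 : ℂ) = g (a, b) + (g (a - b, b + a) + g (a + b, b - a)) := by
      rw [g2 (y := (a - b, b + a)) (z := (a, b)) (by simp only [N]; ring),
        g2 (y := (a + b, b - a)) (z := (a, b)) (by simp only [N]; ring)]
      ring
    have := hasSum_sum_of_ne_finset_zero (L := SummationFilter.unconditional _)
      (f := fun y : {y : ℤ × ℤ // y.1 * a + y.2 * b = a ^ 2 + b ^ 2} => g y)
      (s := {⟨(a, b), show a * a + b * b = _ by ring⟩,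
        ⟨(a - b, b + a), show (a - b) * a + (b + a) * b = _ by ring⟩,
        ⟨(a + b, b - a), show (a + b) * a + (b - a) * b = _ by ring⟩})
      fun y hy => g0 fun n hn => by
        obtain ⟨⟨c, d⟩, h⟩ := y
        have := four n (2 * a - c) (2 * b - d) c d (by rw [← hn, N]; linarith) hn
        simp only [Finset.mem_insert, Finset.mem_singleton, Subtype.mk.injEq, Prod.mk.injEq] at hy
        omega
    rw [Finset.sum_insert (by simp; omega), Finset.sum_pair (by simp; omega), ← e] at this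
    refine this.congr_fun fun y => ?_
    have : y.1 ≠ 0 := fun h => p.ne (by simpa [h] using y.2)
    simp [this]
  · have := S.hasSum.add (hasSum_ite_eq (⟨0, by simp⟩ : {y : ℤ × ℤ // y.1 * w.2 = y.2 * w.1})
      (-∑' y : {y : ℤ × ℤ // y.1 * w.2 = y.2 * w.1}, g y))
    simpa [Subtype.ext_iff] using this

end Pool.Agent.Results.MP_ca57f4_an.Null
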